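import Mathlib
import Pool.Agent.V11269.Forest2

/-!
For almost every choice of two angles and two translation vectors, the union of the two rotated
and translated copies of the honeycomb lattice is a dense forest.
-/

namespace Pool.Agent.Results.MP_e7d22a_nt.TwoCopiesAlmostSurely

open MeasureTheory Pool.Agent.V11269.Forest

/-- The lattice `Λ = Z (1,0) + Z (1/2, √3/2)` in the plane `R^2 = C`. -/
def Lam : Set ℂ := {z | ∃ a b : ℤ, z = a + b * (⟨1 / 2, √3 / 2⟩ : ℂ)}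

/-- `TBG(k, (x_i), (θ_i))`: the union of the `r_{θ_i}(Λ) + x_i`, where rotation by `θ` is
multiplication by `e^{iθ}` (`AddCircle.toCircle θ`, `θ ∈ R / 2πZ`). -/
noncomputable def TBG (k : ℕ) (x : Fin k → ℂ) (θ : Fin k → AddCircle (2 * Real.pi)) : Set ℂ :=
  ⋃ i, (fun z : ℂ => (AddCircle.toCircle (θ i) : ℂ) * z + x i) '' Lam

/-- Dense forests in the plane. -/
def IsDenseForest (Y : Set ℂ) : Prop :=
  ∃ V : ℝ → ℝ, (∀ ε, 0 < ε → ε < 1 → 0 < V ε) ∧
    ∀ ε, 0 < ε → ε < 1 → ∀ p q : ℂ, dist p q = V ε →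
      ∃ z ∈ segment ℝ p q, ∃ y ∈ Y, dist z y ≤ ε

lemma TBG_eq (k : ℕ) (x : Fin k → ℂ) (θ : Fin k → AddCircle (2 * Real.pi)) :
    TBG k x θ = Y (fun i => ei (θ i)) x := by
  ext z
  simp only [TBG, Y, Lam, V11269.Forest.Lat, Set.mem_iUnion, Set.mem_image, Set.mem_ofPred_eq]
  constructor
  · rintro ⟨i, _, ⟨a, b, rfl⟩, rfl⟩
    exact ⟨i, _, ⟨a, b, rfl⟩, by simp [ei, pt, ω]⟩
  · rintro ⟨i, _, ⟨a, b, rfl⟩, rfl⟩
    exact ⟨i, _, ⟨a, b, rfl⟩, by simp [ei, pt, ω]⟩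

lemma isDenseForest_of_isForest {Y : Set ℂ} (h : IsForest Y) : IsDenseForest Y := by
  choose! V hV1 hV2 using h
  refine ⟨V, fun ε h0 _ => hV1 ε h0, fun ε h0 _ p q hpq => ?_⟩
  obtain ⟨z, hz, y, hy, h⟩ := hV2 ε h0 p q hpq
  exact ⟨z, hz, y, hy, h.le⟩

/-- `k = 2` works: for almost every `(θ_1, θ_2, x_1, x_2)` the union of the two copies is a dense
forest. -/
theorem result : ∀ᵐ p : (Fin 2 → AddCircle (2 * Real.pi)) × (Fin 2 → ℂ),
    IsDenseForest (TBG 2 p.2 p.1) := by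
  have h := Measure.quasiMeasurePreserving_fst
    (μ := (volume : Measure (Fin 2 → AddCircle (2 * Real.pi))))
    (ν := (volume : Measure (Fin 2 → ℂ))) |>.ae ae_angles
  rw [Measure.volume_eq_prod]
  filter_upwards [h] with p hp
  rw [TBG_eq]
  exact isDenseForest_of_isForest (forest_of_angle hp p.2)

end Pool.Agent.Results.MP_e7d22a_nt.TwoCopiesAlmostSurely
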